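import Pool.Agent.TH146.Quart

/-!
# A rational self-map of `ℙ^3` whose degrees are not comparable to `n ^ ℓ * δ ^ n` with `ℓ ≤ 3`

The map is induced on the rational threefold `E ^ 3 / μ_6`, `E : y ^ 2 = x ^ 3 + 1`, by the unipotent
automorphism `(A, B, C) ↦ (A, B + A, C + B)` of `E ^ 3`.
-/

set_option autoImplicit false

namespace Pool.Agent.Results.MP_55ef7c_ag.QuarticGrowth

open Pool.Agent.TH146 Filter Topology

universe u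

/-- `F ≍ G`: there are constants `c₁, c₂, c₃ > 0` with `c₁ F(n) ≤ G(n) ≤ c₂ F(n)` for all
`n ≥ c₃`. -/
def Comparable (F G : ℕ → ℝ) : Prop :=
  ∃ c₁ c₂ c₃ : ℝ, 0 < c₁ ∧ 0 < c₂ ∧ 0 < c₃ ∧
    ∀ n : ℕ, c₃ ≤ n → c₁ * F n ≤ G n ∧ G n ≤ c₂ * F n

/-- Over every field of characteristic zero there is a dominant rational self-map `f` of `ℙ^3`
with first dynamical degree `δ = 1` such that `deg (f^n) ≥ c (n + 1) ^ 4` for all
`n = 2 ^ k - 1`, `k ≥ 1`; hence `deg (f^n) ≍ n ^ ℓ δ ^ n` fails for every `ℓ ≤ 3`. -/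
theorem result (K : Type u) [Field K] [CharZero K] :
    ∃ f : RatMap K 3, f.Dominant ∧ ∃ e : ℕ → ℕ, f.IsDegreeSequence e ∧
      ∃ δ : ℝ, Tendsto (fun n : ℕ => (e n : ℝ) ^ ((1 : ℝ) / n)) atTop (𝓝 δ) ∧ δ = 1 ∧
      (∃ c : ℝ, 0 < c ∧ ∀ k : ℕ, 1 ≤ k → c * ((2 ^ k : ℕ) : ℝ) ^ 4 ≤ e (2 ^ k - 1)) ∧
      ∀ ℓ : ℕ, ℓ ≤ 3 → ¬ Comparable (fun n => (e n : ℝ)) (fun n => (n : ℝ) ^ ℓ * δ ^ n) := by
  obtain ⟨f, hf, e, he, ⟨C₀, hC₀⟩, e₀, hlow⟩ := quart K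
  have hlow' : ∀ k : ℕ, (16 : ℝ) ^ k ≤ 3 * e₀ * e (2 ^ k - 1) + 4 := fun k => by
    exact_mod_cast hlow k
  refine ⟨f, hf, e, he, 1, tendsto_root e C₀ 16 (fun n hn => (hC₀ n hn).1)
    (fun n hn => (hC₀ n hn).2), rfl, ⟨1 / (3 * e₀ + 4), by positivity, fun k hk => ?_⟩, ?_⟩
  · have h2 : 1 ≤ 2 ^ k - 1 := by
      have : 2 ^ 1 ≤ 2 ^ k := Nat.pow_le_pow_right (by norm_num) hk
      omega
    have h3 : (1 : ℝ) ≤ e (2 ^ k - 1) := by exact_mod_cast (hC₀ _ h2).1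
    have h4 : (((2 ^ k : ℕ) : ℝ)) ^ 4 = 16 ^ k := by
      push_cast
      rw [← pow_mul, mul_comm, pow_mul]
      norm_num
    rw [h4, one_div, inv_mul_le_iff₀ (by positivity)]
    have := hlow' k
    nlinarith
  · rintro ℓ hℓ ⟨c₁, c₂, c₃, hc₁, hc₂, hc₃, h⟩
    have hev : ∀ᶠ k : ℕ in atTop, c₃ + 1 ≤ (2 : ℝ) ^ k ∧ (3 * e₀ + 4 * c₁) / c₁ < (2 : ℝ) ^ k :=
      ((tendsto_pow_atTop_atTop_of_one_lt one_lt_two).eventually_ge_atTop _).and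
        ((tendsto_pow_atTop_atTop_of_one_lt one_lt_two).eventually_gt_atTop _)
    obtain ⟨k, hk1, hk2⟩ := hev.exists
    obtain ⟨n, hn⟩ : ∃ n, n = 2 ^ k - 1 := ⟨_, rfl⟩
    have hn1 : n + 1 = 2 ^ k := by
      have : 1 ≤ 2 ^ k := Nat.one_le_two_pow
      omega
    have hn2 : (n : ℝ) + 1 = 2 ^ k := by exact_mod_cast hn1
    have hn0 : (0 : ℝ) < n := by linarith
    have hn3 : (1 : ℝ) ≤ n := by
      have : 0 < n := by exact_mod_cast hn0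
      exact_mod_cast this
    have h1 := (h n (by linarith)).1
    simp only [one_pow, mul_one] at h1
    have h5 := hlow' k
    rw [← hn] at h5
    have h6 : (n : ℝ) ^ ℓ ≤ 8 ^ k := by
      calc (n : ℝ) ^ ℓ ≤ (n : ℝ) ^ 3 := pow_le_pow_right₀ hn3 hℓ
        _ ≤ ((2 : ℝ) ^ k) ^ 3 := pow_le_pow_left₀ hn0.le (by linarith) 3
        _ = 8 ^ k := by rw [← pow_mul, mul_comm, pow_mul]; norm_num
    have h7 : (16 : ℝ) ^ k = 2 ^ k * 8 ^ k := by rw [← mul_pow]; norm_num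
    have h8 : (1 : ℝ) ≤ 8 ^ k := one_le_pow₀ (by norm_num)
    rw [div_lt_iff₀ hc₁] at hk2
    have h9 : c₁ * (16 : ℝ) ^ k ≤ (3 * e₀ + 4 * c₁) * 8 ^ k := by
      have e1 : (0 : ℝ) ≤ e₀ := Nat.cast_nonneg _
      have e2 : c₁ * (e n : ℝ) ≤ 8 ^ k := h1.trans h6
      calc c₁ * (16 : ℝ) ^ k ≤ c₁ * (3 * e₀ * e n + 4) :=
            mul_le_mul_of_nonneg_left h5 hc₁.le
        _ = 3 * e₀ * (c₁ * e n) + 4 * c₁ := by ring
        _ ≤ 3 * e₀ * 8 ^ k + 4 * c₁ * 8 ^ k := by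
            have := mul_le_mul_of_nonneg_left e2 (by positivity : (0:ℝ) ≤ 3 * e₀)
            nlinarith
        _ = (3 * e₀ + 4 * c₁) * 8 ^ k := by ring
    rw [h7] at h9
    have h10 : (3 * e₀ + 4 * c₁) * 8 ^ k < 2 ^ k * c₁ * 8 ^ k :=
      mul_lt_mul_of_pos_right hk2 (by positivity)
    linarith

end Pool.Agent.Results.MP_55ef7c_ag.QuarticGrowth
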